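import Pool.Agent.H39.IX.Targets2
import Pool.Agent.H80.G2.Basic

/-!
# MP_323167_an: row S5. Elements of the span of `VN` are near elements `a + z w` with small `z`.
-/

set_option autoImplicit false

open scoped InnerProductSpace Topology
open Filter Finset Pool.Agent.H80.G2 Pool.Agent.H39.IX

namespace Pool.Agent.H77.IX

variable {H : Type} [NormedAddCommGroup H] [InnerProductSpace ℂ H] [CompleteSpace H]

theorem F_zero {G : ℕ → Finset (H →L[ℂ] H)} {F : (H →L[ℂ] H) → (H →L[ℂ] H)} (hF : IsF G F) :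
    F 0 = 0 := by
  have := hF.smul 0 0
  rwa [zero_smul, zero_smul] at this

/-- step 1 -/
theorem s1 (hIDX : T_IDX) {M N P A : VonNeumannAlgebra H} {w : H →L[ℂ] H}
    {G : ℕ → Finset (H →L[ℂ] H)} {ξ ζ : ℕ → H} (hS : Sit M N P A w G ξ ζ)
    {F : (H →L[ℂ] H) → (H →L[ℂ] H)} (hF : IsF G F) {z : H →L[ℂ] H} (hz : z ∈ P)
    {b : H →L[ℂ] H} (hb : b ∈ P) {u : H →L[ℂ] H} (hu : Nor P A u) :
    F (star u * (star (z * w) * b)) = 0 := by
  obtain ⟨_, _, _, _, hort⟩ := hIDX H M P w ξ hS.trM hS.idx
  have hGM : ∀ g, InG G g → g ∈ M := fun g hg => hS.idx.sub g (hS.GP g hg)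
  have hwM : w ∈ M := hS.idx.uni.1
  have hzM : z ∈ M := hS.idx.sub z hz
  have huM : u ∈ M := hS.idx.sub u hu.1.1
  have hbM : b ∈ M := hS.idx.sub b hb
  set T : H →L[ℂ] H := star u * (star (z * w) * b) with hT
  have hTM : T ∈ M :=
    mul_mem (star_mem huM) (mul_mem (star_mem (mul_mem hzM hwM)) hbM)
  have hfM : F T ∈ M := hF.mem M hGM T hTM
  have hfc : Com G (F T) := hF.com T
  have hfP : F T ∈ P := hS.rc _ hfM hfc
  have hfs : Com G (star (F T)) := by
    have := hF.com (star T)
    rwa [hF.star] at this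
  have h1c : Com G (1 : H →L[ℂ] H) := fun g _ => by rw [mul_one, one_mul]
  refine hS.trM.faith _ hfM ?_
  have h1 : star (F T) * F T = F (star (F T) * T) := by
    have := hF.bim (star (F T)) 1 T hfs h1c
    rw [mul_one, mul_one] at this
    exact this.symm
  rw [h1, hF.trc M ξ hS.trM hGM _ (mul_mem (star_mem hfM) hTM)]
  have h2 : star (F T) * T = star ((z * (w * (u * F T) * star w)) * w) * b := by
    have h3 : (z * (w * (u * F T) * star w)) * w = z * w * (u * F T) := by
      simp only [mul_assoc]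
      rw [hS.idx.uni.2.1, mul_one]
    have h4 : star (F T) * T = star (F T) * (star u * (star (z * w) * b)) := by rw [← hT]
    rw [h3, star_mul (z * w) (u * F T), star_mul u (F T), h4]
    simp only [mul_assoc]
  rw [h2]
  exact (hort b hb _ (mul_mem hz (hS.idx.nor _ (mul_mem hu.1.1 hfP)))).2

/-- step 2 -/
theorem s2 (hIDX : T_IDX) (hNPR : T_NPR) {M N P A : VonNeumannAlgebra H} {w : H →L[ℂ] H}
    {G : ℕ → Finset (H →L[ℂ] H)} {ξ ζ : ℕ → H} (hS : Sit M N P A w G ξ ζ)
    {F : (H →L[ℂ] H) → (H →L[ℂ] H)} (hF : IsF G F) {z : H →L[ℂ] H} (hz : z ∈ P)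
    {b : H →L[ℂ] H} (hb : b ∈ P) {s : H →L[ℂ] H} (hs : s ∈ Submodule.span ℂ {u | Nor P A u})
    {y : H →L[ℂ] H} (hy : y ∈ Submodule.span ℂ {v | VN N P A G v}) :
    F (star s * y * (star (z * w) * b)) = 0 := by
  obtain ⟨⟨_, hst, hmu⟩, _, h3, _, h5⟩ := hNPR H M N P A w G ξ ζ hS
  induction hs using Submodule.span_induction with
  | zero => rw [star_zero, zero_mul, zero_mul, F_zero hF]
  | add s t _ _ ihs iht =>
    rw [star_add, add_mul, add_mul, hF.add, ihs, iht, add_zero]
  | smul c s _ ih =>
    rw [star_smul, smul_mul_assoc, smul_mul_assoc, hF.smul, ih, smul_zero]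
  | mem s hs =>
    have hs : Nor P A s := hs
    induction hy using Submodule.span_induction with
    | zero => rw [mul_zero, zero_mul, F_zero hF]
    | add s t _ _ ihs iht => rw [mul_add, add_mul, hF.add, ihs, iht, add_zero]
    | smul c s _ ih => rw [mul_smul_comm, smul_mul_assoc, hF.smul, ih, smul_zero]
    | mem v hv =>
      obtain ⟨hvU, u, hu, hvu⟩ := hv
      have hk : Com G (star u * v) := h3 v u hu hvu hvU.2
      set k : H →L[ℂ] H := star u * v with hkd
      have hp : Nor P A (star u * s) := hmu _ _ (hst _ hu) hs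
      have h1c : Com G (1 : H →L[ℂ] H) := fun g _ => by rw [mul_one, one_mul]
      have hk' : Com G (star (star u * s) * k * (star u * s)) := h5 _ _ hp hk
      have e1 : star s * v * (star (z * w) * b) =
          (star (star u * s) * k * (star u * s)) *
            (star (star u * s) * (star (z * w) * b)) * 1 := by
        have e2 : (star u * s) * star (star u * s) = 1 := by
          rw [star_mul, star_star, mul_assoc, ← mul_assoc s, hs.1.2.2, one_mul, hu.1.2.1]
        have e3 : star (star u * s) * k = star s * v := by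
          rw [star_mul, star_star, hkd, mul_assoc, ← mul_assoc u, hu.1.2.2, one_mul]
        rw [mul_one, e3]
        calc star s * v * (star (z * w) * b)
            = star s * v * 1 * (star (z * w) * b) := by rw [mul_one]
          _ = star s * v * ((star u * s) * star (star u * s)) * (star (z * w) * b) := by rw [e2]
          _ = _ := by simp only [mul_assoc]
      rw [e1, hF.bim _ _ _ hk' h1c, s1 hIDX hS hF hz hb hp, mul_zero, zero_mul]

theorem pf_S5 (hF : T_F) (hIDX : T_IDX) (hNPR : T_NPR) (hDNY : T_DNY) (hOPN : T_OPN) :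
    T_S5 := by
  intro H _ _ _ M N P A w G ξ ζ hS y hy a ha z hz δ hδ
  obtain ⟨F, hF⟩ := hF H G hS.grp
  obtain ⟨hPt, _, _, _, hort⟩ := hIDX H M P w ξ hS.trM hS.idx
  have hGM : ∀ g, InG G g → g ∈ M := fun g hg => hS.idx.sub g (hS.GP g hg)
  have hwM : w ∈ M := hS.idx.uni.1
  have hzM : z ∈ M := hS.idx.sub z hz
  have haM : a ∈ M := hS.idx.sub a ha
  have hsum := hS.trM.sum
  -- the span of the normaliser
  have hspan : ∀ s ∈ Submodule.span ℂ {u | Nor P A u}, s ∈ P := by
    intro s hs
    induction hs using Submodule.span_induction with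
    | zero => exact zero_mem P
    | add s t _ _ ihs iht => exact add_mem ihs iht
    | smul c s _ ih => exact smul_mem' P c ih
    | mem s hs => exact hs.1.1
  -- the inequality on the span
  have key : ∀ y₀ ∈ Submodule.span ℂ {v | VN N P A G v},
      ∀ s ∈ Submodule.span ℂ {u | Nor P A u},
      n2 ξ (star z * s) ≤ ‖a + z * w - y₀‖ * n2 ξ s := by
    intro y₀ hy₀ s hs
    have hsP := hspan s hs
    have hsM := hS.idx.sub s hsP
    have hcM : star (z * w) * s ∈ M := mul_mem (star_mem (mul_mem hzM hwM)) hsM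
    have h1 : n2 ξ (star (z * w) * s) = n2 ξ (star z * s) := by
      rw [star_mul, mul_assoc, n2_uni_mul hsum hS.idx.uni.star]
    have h2 : star (star (z * w) * s) * (star (z * w) * s) =
        star s * (a + z * w) * (star (z * w) * s) -
          star ((z * (w * (star a * s) * star w)) * w) * s := by
      have h3 : (z * (w * (star a * s) * star w)) * w = z * w * (star a * s) := by
        simp only [mul_assoc]
        rw [hS.idx.uni.2.1, mul_one]
      rw [h3, star_mul (star (z * w)) s, star_star, star_mul (z * w) (star a * s),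
        star_mul (star a) s, star_star]
      rw [mul_add, add_mul]
      simp only [mul_assoc]
      abel
    have h3 : tr ξ (star ((z * (w * (star a * s) * star w)) * w) * s) = 0 :=
      (hort s hsP _ (mul_mem hz (hS.idx.nor _ (mul_mem (star_mem ha) hsP)))).2
    have h4 : tr ξ (star s * (a + z * w) * (star (z * w) * s)) =
        tr ξ (F (star s * (a + z * w - y₀) * (star (z * w) * s))) := by
      rw [← hF.trc M ξ hS.trM hGM _ (mul_mem (mul_mem (star_mem hsM)
        (add_mem haM (mul_mem hzM hwM))) hcM)]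
      have h5 : star s * (a + z * w) * (star (z * w) * s) =
          star s * (a + z * w - y₀) * (star (z * w) * s) +
            star s * y₀ * (star (z * w) * s) := by
        rw [mul_sub, sub_mul, sub_add_cancel]
      rw [h5, hF.add, s2 hIDX hNPR hS hF hz hsP hs hy₀, add_zero]
    have h5 : (n2 ξ (star (z * w) * s)) ^ 2 ≤
        ‖a + z * w - y₀‖ * n2 ξ s * n2 ξ (star (z * w) * s) := by
      have h6 := tr_star_mul hsum (star (z * w) * s)
      rw [h2, tr_sub hsum, h3, sub_zero, h4] at h6
      have h7 := hF.cs M ξ hS.trM hGM s hsM _ hcM (a + z * w - y₀)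
      rw [h6] at h7
      rw [Complex.norm_real, Real.norm_of_nonneg (sq_nonneg _)] at h7
      exact h7
    rw [← h1]
    by_contra hcon
    rw [not_le] at hcon
    have h8 : 0 ≤ ‖a + z * w - y₀‖ * n2 ξ s := mul_nonneg (norm_nonneg _) (n2_nonneg _ _)
    nlinarith
  -- all elements of `P`
  have key2 : ∀ y₀ ∈ Submodule.span ℂ {v | VN N P A G v}, ‖z‖ ≤ ‖a + z * w - y₀‖ := by
    intro y₀ hy₀
    rw [← norm_star z]
    refine hOPN H P ξ hPt _ (star_mem hz) _ fun b hb => ?_
    refine le_of_forall_pos_le_add fun ε hε => ?_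
    obtain ⟨⟨h1n, hstn, hmn⟩, _⟩ := hNPR H M N P A w G ξ ζ hS
    set C : ℝ := ‖a + z * w - y₀‖ with hC
    have hC0 : 0 ≤ C := norm_nonneg _
    have hz0 : 0 ≤ ‖star z‖ := norm_nonneg _
    have hη : 0 < ε / (C + ‖star z‖ + 1) := div_pos hε (by positivity)
    obtain ⟨s, hs, hsb⟩ := hDNY H P ξ hPt {u | Nor P A u} (fun x hx => hx.1.1)
      (fun x hx => hstn x hx) (fun x hx y hy => hmn x y hx hy) h1n b
      (fun y hy => hS.reg b hb y fun u hu => hy u hu) _ hη
    have h1 := key y₀ hy₀ s hs
    have h2 : n2 ξ (star z * b) ≤ n2 ξ (star z * s) + n2 ξ (star z * (b - s)) := by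
      have := n2_add hsum (star z * s) (star z * (b - s))
      rwa [← mul_add, add_sub_cancel] at this
    have h3 := n2_mul_le hsum (star z) (b - s)
    have h4 : n2 ξ s ≤ n2 ξ b + n2 ξ (b - s) := by
      have := n2_sub hsum b (b - s)
      rwa [sub_sub_cancel] at this
    set η := ε / (C + ‖star z‖ + 1) with hηd
    have h5 : η * (C + ‖star z‖ + 1) = ε := by
      rw [hηd]
      field_simp
    have h6 : n2 ξ (star z * (b - s)) ≤ ‖star z‖ * η :=
      h3.trans (mul_le_mul_of_nonneg_left hsb.le hz0)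
    have h7 : C * n2 ξ s ≤ C * (n2 ξ b + η) :=
      mul_le_mul_of_nonneg_left (h4.trans (by linarith)) hC0
    nlinarith
  -- the closure
  refine le_of_forall_pos_le_add fun ε hε => ?_
  obtain ⟨y₀, hy₀, hd⟩ := Metric.mem_closure_iff.1 hy ε hε
  have h1 := key2 y₀ hy₀
  have h2 : ‖a + z * w - y₀‖ ≤ ‖a + z * w - y‖ + ‖y - y₀‖ := by
    have := norm_add_le (a + z * w - y) (y - y₀)
    rwa [sub_add_sub_cancel] at this
  rw [dist_eq_norm] at hd
  linarith

end Pool.Agent.H77.IX
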