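import Pool.Agent.H39.IX.Targets2
import Pool.Agent.H80.G2.Basic

/-!
# MP_323167_an: row W2X. A unitary element of `N` which acts on the groups almost as `w`.
-/

set_option autoImplicit false

open scoped InnerProductSpace Topology
open Filter Finset Pool.Agent.H80.G2 Pool.Agent.H39.IX

namespace Pool.Agent.H77.IX

variable {H : Type} [NormedAddCommGroup H] [InnerProductSpace ℂ H] [CompleteSpace H]

theorem norm_of_isom {u : H →L[ℂ] H} (hu : star u * u = 1) : ‖u‖ ≤ 1 := by
  have h1 := CStarRing.norm_star_mul_self (x := u)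
  rw [hu] at h1
  have h2 : ‖(1 : H →L[ℂ] H)‖ ≤ 1 := ContinuousLinearMap.norm_id_le
  nlinarith [norm_nonneg u]

theorem pf_W2X (hKAZ : T_KAZ) (hINT : T_INT) (hQPN : T_QPN) : T_W2X := by
  classical
  intro H _ _ _ M N P A Q w G ξ ζ hS hQ hC
  obtain ⟨_, hQN, _⟩ := hQPN H M N P A Q w G ξ ζ hS hQ
  have hw := hS.idx.uni
  have hws : star w * w = 1 := hw.2.1
  have hww : w * star w = 1 := hw.2.2
  have hwn : ‖w‖ ≤ 1 := norm_of_uni hw
  have hwsn : ‖star w‖ ≤ 1 := norm_of_uni hw.star
  -- the conjugated groups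
  set G' : ℕ → Finset (H →L[ℂ] H) := fun n => (G n).image fun g => w * g * star w with hG'
  have hG's : GrpSeq G' := by
    constructor
    · intro n
      rw [hG', Finset.mem_image]
      exact ⟨1, hS.grp.one n, by rw [mul_one, hww]⟩
    · intro n g hg h hh
      rw [hG', Finset.mem_image] at hg hh ⊢
      obtain ⟨g, hg, rfl⟩ := hg
      obtain ⟨h, hh, rfl⟩ := hh
      refine ⟨g * h, hS.grp.mul n g hg h hh, ?_⟩
      calc w * (g * h) * star w = w * g * 1 * h * star w := by simp only [mul_one, mul_assoc]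
        _ = w * g * (star w * w) * h * star w := by rw [hws]
        _ = _ := by simp only [mul_assoc]
    · intro n g hg
      rw [hG', Finset.mem_image] at hg ⊢
      obtain ⟨g, hg, rfl⟩ := hg
      refine ⟨star g, hS.grp.star n g hg, ?_⟩
      rw [star_mul, star_mul, star_star, mul_assoc]
    · intro n g hg
      rw [hG', Finset.mem_image] at hg
      obtain ⟨g, hg, rfl⟩ := hg
      rw [star_mul, star_mul, star_star]
      calc w * (star g * star w) * (w * g * star w)
          = w * star g * (star w * w) * g * star w := by simp only [mul_assoc]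
        _ = w * (star g * g) * star w := by rw [hws]; simp only [mul_one, mul_assoc]
        _ = 1 := by rw [hS.grp.uni n g hg, mul_one, hww]
    · intro n
      exact Finset.image_subset_image (hS.grp.mono n)
  have hin : ∀ g, InG G g → InG G' (w * g * star w) := by
    rintro g ⟨n, hn⟩
    exact ⟨n, Finset.mem_image.2 ⟨g, hn, rfl⟩⟩
  have hnear : ∀ g, InG G' g → ∃ y ∈ Q, ‖g - y‖ ≤ 20 / 1000000 := by
    rintro g ⟨n, hn⟩
    rw [hG', Finset.mem_image] at hn
    obtain ⟨g, hg, rfl⟩ := hn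
    have hgP : w * g * star w ∈ P := hS.idx.nor g (hS.GP g ⟨n, hg⟩)
    obtain ⟨y, hy, hyd⟩ := hC.PQ _ hgP
    refine ⟨y, hy, hyd.trans ?_⟩
    have h1 : ‖w * g * star w‖ ≤ 1 := by
      have h2 : ‖w * g * star w‖ ≤ ‖w * g‖ * ‖star w‖ := norm_mul_le _ _
      have h3 : ‖w * g‖ ≤ ‖w‖ * ‖g‖ := norm_mul_le _ _
      have h4 : ‖g‖ ≤ 1 := norm_of_isom (hS.grp.uni n g hg)
      have h5 : ‖w * g‖ ≤ 1 := h3.trans (mul_le_one₀ hwn (norm_nonneg _) h4)
      exact h2.trans (mul_le_one₀ h5 (norm_nonneg _) hwsn)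
    nlinarith
  obtain ⟨s, hs, hs1, hsQ⟩ := hKAZ H Q G' hG's (20 / 1000000) (by norm_num) (by norm_num) hnear
  have hs1' : ‖s - 1‖ ≤ 6 / 1000 := hs1.trans (by norm_num)
  obtain ⟨T, hTN, _, hTd⟩ := hS.nMN w hw.1 hwn
  have hsw : UH (s * w) := by
    constructor
    · rw [star_mul, mul_assoc, ← mul_assoc (star s), hs.1, one_mul, hws]
    · rw [star_mul, mul_assoc, ← mul_assoc w, hww, one_mul, hs.2]
  have hsww : ‖s * w - w‖ ≤ 6 / 1000 := by
    have h1 : s * w - w = (s - 1) * w := by rw [sub_mul, one_mul]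
    rw [h1]
    refine (norm_mul_le _ _).trans ?_
    calc ‖s - 1‖ * ‖w‖ ≤ ‖s - 1‖ * 1 := mul_le_mul_of_nonneg_left hwn (norm_nonneg _)
      _ ≤ _ := by rw [mul_one]; exact hs1'
  have hTs : ‖T - s * w‖ ≤ 6 / 1000 + 1 / 1000000 := by
    have h1 : T - s * w = (T - w) - (s * w - w) := by abel
    rw [h1]
    refine (norm_sub_le _ _).trans ?_
    rw [norm_sub_rev T w]
    linarith
  obtain ⟨v, hvU, hvd, hvg⟩ := hINT H N G hS.grp (fun g => g)
    (fun g => s * (w * g * star w) * star s) 1 (s * w) T (6 / 1000 + 1 / 1000000)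
    ⟨by rw [star_one, one_mul], by rw [star_one, one_mul]⟩ hsw
    (fun g _ => by rw [star_one, one_mul, mul_one])
    (fun g hg => ⟨hS.GN g hg, hQN _ (hsQ _ (hin g hg)), by
      calc s * w * g = s * (w * g * 1) := by simp only [mul_one, mul_assoc]
        _ = s * (w * g * (star w * w)) := by rw [hws]
        _ = s * (w * g * star w) * 1 * w := by simp only [mul_one, mul_assoc]
        _ = s * (w * g * star w) * (star s * s) * w := by rw [hs.1]
        _ = _ := by simp only [mul_assoc]⟩) hTN hTs (by norm_num)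
  refine ⟨s, v, hs, hs1', hvU, ?_, fun g hg => hsQ _ (hin g hg), fun g hg => ?_⟩
  · have h1 : v - w = (v - s * w) + (s * w - w) := by abel
    rw [h1]
    refine (norm_add_le _ _).trans ?_
    linarith
  · rw [hvg g hg, mul_assoc, hvU.2.2, mul_one]

end Pool.Agent.H77.IX
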